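import Pool.Agent.H523R2.Sun.Fin

/-!
Certificates: word systems and the chain of pairs.
-/

namespace Pool.Agent.H523R2.Sun

/-- words of length 10 -/
def S1W : List ℕ :=
  [31, 239, 242, 253, 375, 379, 381, 431, 439, 446, 453, 475, 478, 491, 508, 617, 631, 638, 699,
  701, 702, 719, 727, 731, 750, 757, 815, 820, 827, 847, 861, 862, 871, 890, 906, 919, 925, 941,
  947, 982, 985, 995, 998, 1004, 1009, 1016]

/-- words of length 10 -/
def S1V : List ℕ :=
  [111, 123, 126, 172, 183, 187, 215, 221, 222, 231, 249, 291, 317, 318, 335, 343, 344, 365, 374,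
  399, 411, 413, 437, 442, 462, 467, 486, 489, 490, 497, 500, 559, 567, 573, 582, 603, 605, 627,
  636, 655, 657, 670, 683, 694, 717, 730, 739, 741, 746, 756, 760, 791, 795, 798, 814, 825, 843,
  853, 869, 874, 876, 881, 882, 903, 924, 933, 934, 937, 946, 952, 963, 969, 972, 978, 980]

lemma chk_S1 : chk 10 S1W S1V = true := by decide +kernel

/-- words of length 7 -/
def S2W : List ℕ :=
  [23, 30, 45, 46, 53, 59, 68, 75, 89, 99, 114, 120]

/-- words of length 7 -/
def S2V : List ℕ :=
  [7, 13, 27, 28, 38, 43, 51, 52, 57, 58, 74, 81, 82, 97, 104]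

lemma chk_S2 : chk 7 S2W S2V = true := by decide +kernel

lemma h1 : Pair 10 (46 * 2 ^ 0) (75 * 2 ^ 0) :=
  step3 pair_one 10 S1W S1V chk_S1 46 75 0 (by decide +kernel) (by decide +kernel) _ _ (by norm_num) (by norm_num)

lemma h2 : Pair 70 (25069176427500 * 2 ^ 0) (40242352500000 * 2 ^ 0) :=
  step3 h1 7 S2W S2V chk_S2 25069176427500 40242352500000 0 (by decide +kernel) (by decide +kernel) _ _ (by norm_num) (by norm_num)

lemma h3 : Pair 490 (2934259225666290381 * 2 ^ 256) (4679889568812374516 * 2 ^ 256) :=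
  step3 h2 7 S2W S2V chk_S2 2934259225666290381 4679889568812374516 256 (by decide +kernel) (by decide +kernel) _ _ (by norm_num) (by norm_num)

lemma h4 : Pair 3430 (5201428085006476819 * 2 ^ 2165) (8273293612286359564 * 2 ^ 2165) :=
  step3 h3 7 S2W S2V chk_S2 5201428085006476819 8273293612286359564 373 (by decide +kernel) (by decide +kernel) _ _ (by norm_num) (by norm_num)

lemma h5 : Pair 24010 (4429642400574481260 * 2 ^ 15534) (7037596852133281963 * 2 ^ 15534) :=
  step3 h4 7 S2W S2V chk_S2 4429642400574481260 7037596852133281963 379 (by decide +kernel) (by decide +kernel) _ _ (by norm_num) (by norm_num)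

lemma h6 : Pair 168070 (5734328436820073070 * 2 ^ 109115) (9105966303375816194 * 2 ^ 109115) :=
  step3 h5 7 S2W S2V chk_S2 5734328436820073070 9105966303375816194 377 (by decide +kernel) (by decide +kernel) _ _ (by norm_num) (by norm_num)

end Pool.Agent.H523R2.Sun
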