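import Pool.Agent.H523R2.Sun.Sys

/-!
From one pair to all large dimensions, and the limsup.
-/

namespace Pool.Agent.H523R2.Sun

open Finset Filter Topology

lemma pow_fam {n f g : ℕ} (h : Pair n f g) (t : ℕ) :
    ∃ F : Finset (Fin (t * n) → Bool), F.card = f ^ t ∧ Good F := by
  obtain ⟨F, G, rfl, rfl, h3, h4, h5⟩ := h
  have hW : Good ({fun _ => true} : Finset (Fin t → Bool)) := by
    intro x hx y hy z hz hne
    rw [mem_singleton] at hx hy hz
    exact absurd ⟨hx.trans hy.symm, hy.trans hz.symm⟩ hne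
  refine ⟨comp F G {fun _ => true}, ?_, comp_good h3 h4 h5 hW⟩
  rw [comp_card h5, sum_singleton]
  simp

lemma embed {m n : ℕ} (hmn : m ≤ n) (A : Finset (Fin m → Bool)) (hA : Good A) :
    ∃ B : Finset (Fin n → Bool), Good B ∧ B.card = A.card := by
  classical
  let φ : (Fin m → Bool) → (Fin n → Bool) := fun x i => if h : (i : ℕ) < m then x ⟨i, h⟩ else false
  let ψ : (Fin n → Bool) → (Fin m → Bool) := fun x i => x (Fin.castLE hmn i)
  have hψφ : ∀ x, ψ (φ x) = x := by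
    intro x; funext i
    simp [ψ, φ]
  have hinj : Function.Injective φ := Function.LeftInverse.injective hψφ
  refine ⟨A.map ⟨φ, hinj⟩, ?_, card_map _⟩
  intro x hx y hy z hz hne
  obtain ⟨a, ha, rfl⟩ := mem_map.1 hx
  obtain ⟨b, hb, rfl⟩ := mem_map.1 hy
  obtain ⟨c, hc, rfl⟩ := mem_map.1 hz
  obtain ⟨i, hi⟩ := hA a ha b hb c hc (by rintro ⟨rfl, rfl⟩; exact hne ⟨rfl, rfl⟩)
  refine ⟨Fin.castLE hmn i, ?_⟩
  have e : ∀ x : Fin m → Bool, φ x (Fin.castLE hmn i) = x i := fun x => congrFun (hψφ x) i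
  simpa [e] using hi

/-- no three distinct members form a sunflower (all pairwise intersections equal) -/
def SunflowerFree {n : ℕ} (F : Finset (Finset (Fin n))) : Prop :=
  ∀ A ∈ F, ∀ B ∈ F, ∀ C ∈ F, A ≠ B → A ≠ C → B ≠ C → ¬ (A ∩ B = A ∩ C ∧ A ∩ C = B ∩ C)

lemma toFam {n : ℕ} (A : Finset (Fin n → Bool)) (hA : Good A) :
    ∃ F : Finset (Finset (Fin n)), SunflowerFree F ∧ F.card = A.card := by
  classical
  let φ : (Fin n → Bool) → Finset (Fin n) := fun x => univ.filter fun i => x i = true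
  have hφ : ∀ x i, i ∈ φ x ↔ x i = true := by intro x i; simp [φ]
  have hinj : Function.Injective φ := by
    intro x y hxy
    funext i
    have : (i ∈ φ x) = (i ∈ φ y) := by rw [hxy]
    rw [hφ, hφ] at this
    exact Bool.eq_iff_iff.2 (iff_of_eq this)
  refine ⟨A.map ⟨φ, hinj⟩, ?_, card_map _⟩
  intro X hX Y hY Z hZ hXY hXZ hYZ
  obtain ⟨x, hx, rfl⟩ := mem_map.1 hX
  obtain ⟨y, hy, rfl⟩ := mem_map.1 hY
  obtain ⟨z, hz, rfl⟩ := mem_map.1 hZ
  rintro ⟨h1, h2⟩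
  obtain ⟨i, hi⟩ := hA x hx y hy z hz (by rintro ⟨rfl, rfl⟩; exact hXY rfl)
  have e1 : i ∈ φ x ∩ φ y ↔ i ∈ φ x ∩ φ z := by
    have : φ x ∩ φ y = φ x ∩ φ z := h1
    rw [this]
  have e2 : i ∈ φ x ∩ φ z ↔ i ∈ φ y ∩ φ z := by
    have : φ x ∩ φ z = φ y ∩ φ z := h2
    rw [this]
  rw [mem_inter, mem_inter, hφ, hφ, hφ] at e1 e2
  revert hi e1 e2
  cases x i <;> cases y i <;> cases z i <;> simp [two]

theorem all_large {n f g : ℕ} (h : Pair n f g) (hn : 1 ≤ n)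
    (C c0 : ℝ) (hc0 : 1 ≤ c0) (hC : c0 < C) (hCD : C ^ n ≤ f) :
    ∃ n0 : ℕ, ∀ m : ℕ, n0 ≤ m → ∃ F : Finset (Finset (Fin m)), SunflowerFree F ∧
      c0 ^ m ≤ (F.card : ℝ) := by
  have hc0' : 0 < c0 := by linarith
  have hr : 1 < C / c0 := by rwa [one_lt_div hc0']
  obtain ⟨t0, ht0⟩ := pow_unbounded_of_one_lt (c0 ^ n) hr
  refine ⟨t0 * n + n, fun m hm => ?_⟩
  set t := m / n with ht
  have htD : t * n ≤ m := Nat.div_mul_le_self m n
  have hn' : m < t * n + n := Nat.lt_div_mul_add (a := m) (b := n) hn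
  have htt : t0 ≤ t := by
    by_contra hcon
    push Not at hcon
    have h1 : t * n + n ≤ t0 * n := by
      have : (t + 1) * n ≤ t0 * n := Nat.mul_le_mul_right _ hcon
      linarith
    omega
  obtain ⟨A, hAc, hA⟩ := pow_fam h t
  obtain ⟨B, hB, hBc⟩ := embed htD A hA
  obtain ⟨F, hF, hFc⟩ := toFam B hB
  refine ⟨F, hF, ?_⟩
  rw [hFc, hBc, hAc]
  push_cast
  have hCpos : 0 < C := by linarith
  calc c0 ^ m ≤ c0 ^ (t * n + n) := pow_le_pow_right₀ hc0 hn'.le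
    _ = c0 ^ (t * n) * c0 ^ n := pow_add _ _ _
    _ ≤ c0 ^ (t * n) * (C / c0) ^ t0 := mul_le_mul_of_nonneg_left ht0.le (by positivity)
    _ ≤ c0 ^ (t * n) * (C / c0) ^ (t * n) := by
        refine mul_le_mul_of_nonneg_left (pow_le_pow_right₀ hr.le ?_) (by positivity)
        calc t0 ≤ t := htt
          _ = t * 1 := (mul_one t).symm
          _ ≤ t * n := Nat.mul_le_mul_left _ hn
    _ = (C ^ n) ^ t := by
        rw [← mul_pow, mul_div_cancel₀ _ hc0'.ne', mul_comm t n, pow_mul]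
    _ ≤ (f : ℝ) ^ t := pow_le_pow_left₀ (by positivity) hCD t

/-- The numerical certificate for the final step. -/
def Cert (n f k a b : ℕ) : Bool := Nat.ble (a ^ n) (f * 2 ^ k * b ^ n)

theorem finish {n f g k : ℕ} (h : Pair n (f * 2 ^ k) (g * 2 ^ k)) (hn : 1 ≤ n) (a b : ℕ)
    (hb : 0 < b) (r : ℝ) (hr : 1 ≤ r) (hr2 : r < (a : ℝ) / b) (hnum : Cert n f k a b = true) :
    ∃ n0 : ℕ, ∀ m : ℕ, n0 ≤ m → ∃ F : Finset (Finset (Fin m)), SunflowerFree F ∧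
      r ^ m ≤ (F.card : ℝ) := by
  refine all_large h hn ((a : ℝ) / b) r hr hr2 ?_
  have h1 : a ^ n ≤ f * 2 ^ k * b ^ n := Nat.le_of_ble_eq_true hnum
  have hb' : (0 : ℝ) < (b : ℝ) ^ n := by positivity
  rw [div_pow, div_le_iff₀ hb']
  exact_mod_cast h1

/-- `M(n)`: the largest size of a sunflower-free family of subsets of an `n`-set. -/
noncomputable def M (n : ℕ) : ℕ :=
  sSup {t | ∃ F : Finset (Finset (Fin n)), SunflowerFree F ∧ F.card = t}

lemma M_bdd (n : ℕ) :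
    BddAbove {t | ∃ F : Finset (Finset (Fin n)), SunflowerFree F ∧ F.card = t} := by
  refine ⟨2 ^ n, ?_⟩
  rintro t ⟨F, _, rfl⟩
  have := card_le_univ F
  rwa [Fintype.card_finset, Fintype.card_fin] at this

lemma M_le (n : ℕ) : M n ≤ 2 ^ n := by
  have h0 : (0 : ℕ) ∈ {t | ∃ F : Finset (Finset (Fin n)), SunflowerFree F ∧ F.card = t} :=
    ⟨∅, by intro A hA; simp at hA, card_empty⟩
  have := Nat.sSup_mem ⟨0, h0⟩ (M_bdd n)
  obtain ⟨F, _, hF⟩ := this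
  have h1 := card_le_univ F
  rw [Fintype.card_finset, Fintype.card_fin] at h1
  rw [M, ← hF]
  exact h1

theorem limsup_ge (r : ℝ) (hr : 1 ≤ r) (h : ∃ n0 : ℕ, ∀ m : ℕ, n0 ≤ m →
    ∃ F : Finset (Finset (Fin m)), SunflowerFree F ∧ r ^ m ≤ (F.card : ℝ)) :
    (∃ n0 : ℕ, ∀ n : ℕ, n0 ≤ n → r ^ n ≤ (M n : ℝ)) ∧
    r ≤ limsup (fun n : ℕ => (M n : ℝ) ^ (1 / (n : ℝ))) atTop := by
  obtain ⟨n0, h⟩ := h
  have hM : ∀ n : ℕ, n0 ≤ n → r ^ n ≤ (M n : ℝ) := by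
    intro n hn
    obtain ⟨F, hF, hF'⟩ := h n hn
    refine hF'.trans ?_
    exact_mod_cast le_csSup (M_bdd n) ⟨F, hF, rfl⟩
  refine ⟨⟨n0, hM⟩, ?_⟩
  have hr0 : 0 ≤ r := by linarith
  have hle : ∀ᶠ n : ℕ in atTop, r ≤ (M n : ℝ) ^ (1 / (n : ℝ)) := by
    filter_upwards [eventually_ge_atTop (max n0 1)] with n hn
    have h1 : n0 ≤ n := le_trans (le_max_left _ _) hn
    have h2 : 1 ≤ n := le_trans (le_max_right _ _) hn
    have h3 := Real.rpow_le_rpow (by positivity) (hM n h1) (by positivity : (0 : ℝ) ≤ 1 / (n : ℝ))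
    rwa [← Real.rpow_natCast, ← Real.rpow_mul hr0, mul_one_div_cancel
      (by positivity : (n : ℝ) ≠ 0), Real.rpow_one] at h3
  have hbd : IsBoundedUnder (· ≤ ·) atTop (fun n : ℕ => (M n : ℝ) ^ (1 / (n : ℝ))) := by
    refine ⟨2, ?_⟩
    rw [eventually_map]
    filter_upwards [eventually_ge_atTop 1] with n hn
    have h1 : (M n : ℝ) ≤ 2 ^ n := by exact_mod_cast M_le n
    have h3 := Real.rpow_le_rpow (by positivity) h1 (by positivity : (0 : ℝ) ≤ 1 / (n : ℝ))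
    rwa [← Real.rpow_natCast, ← Real.rpow_mul (by norm_num), mul_one_div_cancel
      (by positivity : (n : ℝ) ≠ 0), Real.rpow_one] at h3
  exact le_limsup_of_frequently_le hle.frequently hbd

end Pool.Agent.H523R2.Sun
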