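import Mathlib

/-!
Pairs of sunflower-free families and their composition.
-/

namespace Pool.Agent.H523R2.Sun

open Finset

/-- exactly two of the three are true -/
def two (a b c : Bool) : Bool := (a && b && !c) || (a && !b && c) || (!a && b && c)

/-- some coordinate carries exactly two ones -/
def NF {ι : Type*} (x y z : ι → Bool) : Prop := ∃ i, two (x i) (y i) (z i) = true

lemma two_self : ∀ a : Bool, two a a a = false := by decide
lemma two_comm1 : ∀ a b c : Bool, two a b c = two b a c := by decide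
lemma two_comm2 : ∀ a b c : Bool, two a b c = two a c b := by decide

lemma NF.c1 {ι : Type*} {x y z : ι → Bool} (h : NF x y z) : NF y x z := by
  obtain ⟨i, hi⟩ := h; exact ⟨i, by rw [two_comm1]; exact hi⟩
lemma NF.c2 {ι : Type*} {x y z : ι → Bool} (h : NF x y z) : NF x z y := by
  obtain ⟨i, hi⟩ := h; exact ⟨i, by rw [two_comm2]; exact hi⟩

lemma not_NF_self {ι : Type*} (x : ι → Bool) : ¬ NF x x x := by
  rintro ⟨i, hi⟩
  rw [two_self] at hi
  exact Bool.false_ne_true hi

/-- any three members that are not all equal have a coordinate with exactly two ones -/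
def Good {ι : Type*} (F : Finset (ι → Bool)) : Prop :=
  ∀ x ∈ F, ∀ y ∈ F, ∀ z ∈ F, ¬ (x = y ∧ y = z) → NF x y z

/-- a compatible pair of families of sizes `f` and `g` in dimension `n` -/
def Pair (n f g : ℕ) : Prop :=
  ∃ F G : Finset (Fin n → Bool), F.card = f ∧ G.card = g ∧ Good F ∧ Good G ∧
    ∀ x ∈ F, ∀ y ∈ F, ∀ z ∈ G, NF x y z

lemma Good.mono {ι : Type*} {F F' : Finset (ι → Bool)} (h : Good F) (hs : F' ⊆ F) : Good F' :=
  fun x hx y hy z hz hne => h x (hs hx) y (hs hy) z (hs hz) hne

lemma Pair.mono {n f g f' g' : ℕ} (h : Pair n f g) (hf : f' ≤ f) (hg : g' ≤ g) :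
    Pair n f' g' := by
  obtain ⟨F, G, rfl, rfl, h3, h4, h5⟩ := h
  obtain ⟨F', hF, hF'⟩ := exists_subset_card_eq hf
  obtain ⟨G', hG, hG'⟩ := exists_subset_card_eq hg
  exact ⟨F', G', hF', hG', h3.mono hF, h4.mono hG,
    fun x hx y hy z hz => h5 x (hF hx) y (hF hy) z (hG hz)⟩

/-- the currying equivalence -/
def cur (b d : ℕ) : (Fin b → Fin d → Bool) ≃ (Fin (b * d) → Bool) where
  toFun f := fun i => f (finProdFinEquiv.symm i).1 (finProdFinEquiv.symm i).2
  invFun g := fun i j => g (finProdFinEquiv (i, j))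
  left_inv f := by funext i j; simp
  right_inv g := by
    funext i
    show g (finProdFinEquiv (finProdFinEquiv.symm i)) = g i
    rw [Equiv.apply_symm_apply]

lemma NF_cur {b d : ℕ} {x y z : Fin (b * d) → Bool} (k : Fin b)
    (h : NF ((cur b d).symm x k) ((cur b d).symm y k) ((cur b d).symm z k)) : NF x y z := by
  obtain ⟨i, hi⟩ := h
  exact ⟨finProdFinEquiv (k, i), hi⟩

/-- the elements of type `w` -/
def box {n : ℕ} (F G : Finset (Fin n → Bool)) {N : ℕ} (w : Fin N → Bool) :
    Finset (Fin N → Fin n → Bool) :=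
  Fintype.piFinset fun k => if w k then F else G

lemma mem_box {n : ℕ} {F G : Finset (Fin n → Bool)} {N : ℕ} {w : Fin N → Bool}
    {x : Fin N → Fin n → Bool} : x ∈ box F G w ↔ ∀ k, x k ∈ if w k then F else G :=
  Fintype.mem_piFinset

/-- composition of words with a pair -/
def comp {n : ℕ} (F G : Finset (Fin n → Bool)) {N : ℕ} (W : Finset (Fin N → Bool)) :
    Finset (Fin (N * n) → Bool) :=
  (W.biUnion fun w => box F G w).map (cur N n).toEmbedding

lemma mem_comp {n : ℕ} {F G : Finset (Fin n → Bool)} {N : ℕ} {W : Finset (Fin N → Bool)}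
    {x : Fin (N * n) → Bool} :
    x ∈ comp F G W ↔ ∃ w ∈ W, ∀ k, (cur N n).symm x k ∈ if w k then F else G := by
  simp only [comp, mem_map_equiv, mem_biUnion, mem_box]

section
variable {n : ℕ} {F G : Finset (Fin n → Bool)} (hF : Good F) (hG : Good G)
  (hFG : ∀ x ∈ F, ∀ y ∈ F, ∀ z ∈ G, NF x y z)
include hFG

/-- a coordinate with exactly two letters `F` -/
lemma nf_of_two {N : ℕ} {u v w : Fin N → Bool} {x y z : Fin (N * n) → Bool} (k : Fin N)
    (hk : two (u k) (v k) (w k) = true)
    (hx : (cur N n).symm x k ∈ if u k then F else G)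
    (hy : (cur N n).symm y k ∈ if v k then F else G)
    (hz : (cur N n).symm z k ∈ if w k then F else G) : NF x y z := by
  apply NF_cur k
  revert hk hx hy hz
  cases u k <;> cases v k <;> cases w k <;> intro hk hx hy hz <;>
    first
    | exact absurd hk (by decide)
    | (simp only [Bool.false_eq_true, if_false, if_true] at hx hy hz
       first
       | exact hFG _ hx _ hy _ hz
       | exact (hFG _ hx _ hz _ hy).c2
       | exact ((hFG _ hy _ hz _ hx).c2).c1)

lemma disj : ∀ x, x ∈ F → x ∈ G → False :=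
  fun x h1 h2 => not_NF_self x (hFG x h1 x h1 x h2)

include hF hG

lemma comp_good {N : ℕ} {W : Finset (Fin N → Bool)} (hW : Good W) : Good (comp F G W) := by
  intro x hx y hy z hz hne
  obtain ⟨u, hu, hx⟩ := mem_comp.1 hx
  obtain ⟨v, hv, hy⟩ := mem_comp.1 hy
  obtain ⟨w, hw, hz⟩ := mem_comp.1 hz
  by_cases he : u = v ∧ v = w
  · obtain ⟨rfl, rfl⟩ := he
    have : ∃ k, ¬ ((cur N n).symm x k = (cur N n).symm y k ∧
        (cur N n).symm y k = (cur N n).symm z k) := by
      by_contra hcon
      push Not at hcon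
      exact hne ⟨(cur N n).symm.injective (funext fun k => (hcon k).1),
        (cur N n).symm.injective (funext fun k => (hcon k).2)⟩
    obtain ⟨k, hk⟩ := this
    apply NF_cur k
    have h1 := hx k
    have h2 := hy k
    have h3 := hz k
    by_cases huk : u k
    · rw [if_pos huk] at h1 h2 h3
      exact hF _ h1 _ h2 _ h3 hk
    · rw [if_neg huk] at h1 h2 h3
      exact hG _ h1 _ h2 _ h3 hk
  · obtain ⟨k, hk⟩ := hW u hu v hv w hw he
    exact nf_of_two hFG k hk (hx k) (hy k) (hz k)

omit hF hG in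
lemma comp_card {N : ℕ} (W : Finset (Fin N → Bool)) :
    (comp F G W).card = ∑ w ∈ W, ∏ k, (if w k then F.card else G.card) := by
  classical
  rw [comp, card_map, card_biUnion]
  · refine sum_congr rfl fun w _ => ?_
    rw [box, Fintype.card_piFinset]
    refine prod_congr rfl fun k _ => ?_
    split_ifs <;> rfl
  · intro u _ v _ hne
    rw [Function.onFun, disjoint_left]
    intro x hx hy
    rw [mem_box] at hx hy
    apply hne
    funext k
    have h1 := hx k
    have h2 := hy k
    by_contra hk
    cases hu : u k <;> cases hv : v k <;> rw [hu] at h1 hk <;> rw [hv] at h2 hk <;>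
      first
      | exact hk rfl
      | (simp only [Bool.false_eq_true, if_false, if_true] at h1 h2
         first
         | exact disj hFG _ h1 h2
         | exact disj hFG _ h2 h1)

end

theorem comp_pair {n f g : ℕ} (h : Pair n f g) {N : ℕ} (W V : Finset (Fin N → Bool))
    (hW : Good W) (hV : Good V) (hWV : ∀ x ∈ W, ∀ y ∈ W, ∀ z ∈ V, NF x y z) :
    Pair (N * n) (∑ w ∈ W, ∏ k, if w k then f else g) (∑ w ∈ V, ∏ k, if w k then f else g) := by
  obtain ⟨F, G, rfl, rfl, h3, h4, h5⟩ := h
  refine ⟨comp F G W, comp F G V, comp_card h5 W, comp_card h5 V, comp_good h3 h4 h5 hW,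
    comp_good h3 h4 h5 hV, ?_⟩
  intro x hx y hy z hz
  obtain ⟨u, hu, hx⟩ := mem_comp.1 hx
  obtain ⟨v, hv, hy⟩ := mem_comp.1 hy
  obtain ⟨w, hw, hz⟩ := mem_comp.1 hz
  obtain ⟨k, hk⟩ := hWV u hu v hv w hw
  exact nf_of_two h5 k hk (hx k) (hy k) (hz k)

/-! ### Words as natural numbers -/

/-- Boolean test: some bit is set in exactly two of the numbers -/
def nfw (x y z : ℕ) : Bool :=
  !(Nat.beq (Nat.lor (Nat.lor (Nat.land x y) (Nat.land x z)) (Nat.land y z))
    (Nat.land (Nat.land x y) z))

lemma nfw_iff (x y z : ℕ) : nfw x y z = true ↔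
    ∃ k, two (x.testBit k) (y.testBit k) (z.testBit k) = true := by
  have key : ∀ a b c : Bool, two a b c = false ↔ (a && b || a && c || b && c) = (a && b && c) := by
    decide
  rw [nfw, Bool.not_eq_true']
  constructor
  · intro h
    by_contra hcon
    push Not at hcon
    have : (x &&& y ||| x &&& z) ||| y &&& z = (x &&& y) &&& z := by
      apply Nat.eq_of_testBit_eq
      intro k
      have := hcon k
      rw [Ne, Bool.not_eq_true, key] at this
      simp only [Nat.testBit_or, Nat.testBit_and]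
      exact this
    rw [show Nat.lor (Nat.lor (Nat.land x y) (Nat.land x z)) (Nat.land y z) =
      (x &&& y ||| x &&& z) ||| y &&& z from rfl, this] at h
    rw [show Nat.land (Nat.land x y) z = (x &&& y) &&& z from rfl, Nat.beq_refl] at h
    exact Bool.false_ne_true h.symm
  · rintro ⟨k, hk⟩
    by_contra hcon
    rw [Bool.not_eq_false] at hcon
    have h2 : (x &&& y ||| x &&& z) ||| y &&& z = (x &&& y) &&& z := Nat.eq_of_beq_eq_true hcon
    have h3 := congrArg (fun t => t.testBit k) h2
    simp only [Nat.testBit_or, Nat.testBit_and] at h3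
    rw [(key _ _ _).2 h3] at hk
    exact Bool.false_ne_true hk

lemma nfw_c1 {x y z : ℕ} (h : nfw x y z = true) : nfw y x z = true := by
  rw [nfw_iff] at h ⊢
  obtain ⟨k, hk⟩ := h
  exact ⟨k, by rw [two_comm1]; exact hk⟩

lemma nfw_c2 {x y z : ℕ} (h : nfw x y z = true) : nfw x z y = true := by
  rw [nfw_iff] at h ⊢
  obtain ⟨k, hk⟩ := h
  exact ⟨k, by rw [two_comm2]; exact hk⟩

/-- all pairs `y, z` of `l` (in order) are fine with `x` -/
def triL (x : ℕ) : List ℕ → Bool
  | [] => true
  | y :: l => (l.all fun z => nfw x y z) && triL x l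

/-- the list is a good family -/
def goodL : List ℕ → Bool
  | [] => true
  | x :: l => (l.all fun y => nfw x x y && nfw x y y) && triL x l && goodL l

/-- compatibility of `W` with `V` -/
def crossL (V : List ℕ) : List ℕ → Bool
  | [] => true
  | x :: l => (V.all fun z => nfw x x z) && (l.all fun y => V.all fun z => nfw x y z) &&
      crossL V l

lemma triL_spec (x : ℕ) : ∀ l : List ℕ, triL x l = true → ∀ y ∈ l, ∀ z ∈ l, y ≠ z →
    nfw x y z = true
  | [], _, y, hy, _, _, _ => by simp at hy
  | a :: l, h, y, hy, z, hz, hne => by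
    rw [triL, Bool.and_eq_true, List.all_eq_true] at h
    rcases List.mem_cons.1 hy with rfl | hy'
    · rcases List.mem_cons.1 hz with rfl | hz'
      · exact absurd rfl hne
      · exact h.1 z hz'
    · rcases List.mem_cons.1 hz with rfl | hz'
      · exact nfw_c2 (h.1 y hy')
      · exact triL_spec x l h.2 y hy' z hz' hne

lemma goodL_spec : ∀ l : List ℕ, goodL l = true → ∀ x ∈ l, ∀ y ∈ l, ∀ z ∈ l,
    ¬ (x = y ∧ y = z) → nfw x y z = true
  | [], _, x, hx, _, _, _, _, _ => by simp at hx
  | a :: l, h, x, hx, y, hy, z, hz, hne => by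
    rw [goodL, Bool.and_eq_true, Bool.and_eq_true, List.all_eq_true] at h
    obtain ⟨⟨h1, h2⟩, h3⟩ := h
    have h1' : ∀ y ∈ l, nfw a a y = true ∧ nfw a y y = true := by
      intro y hy
      have := h1 y hy
      rwa [Bool.and_eq_true] at this
    have h2' := triL_spec a l h2
    have h3' := goodL_spec l h3
    -- auxiliary: one element equal to `a`
    have haux : ∀ y ∈ a :: l, ∀ z ∈ a :: l, ¬ (a = y ∧ y = z) → nfw a y z = true := by
      intro y hy z hz hne
      rcases List.mem_cons.1 hy with rfl | hy'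
      · rcases List.mem_cons.1 hz with rfl | hz'
        · exact absurd ⟨rfl, rfl⟩ hne
        · exact (h1' z hz').1
      · rcases List.mem_cons.1 hz with rfl | hz'
        · exact nfw_c2 (h1' y hy').1
        · by_cases hyz : y = z
          · subst hyz; exact (h1' y hy').2
          · exact h2' y hy' z hz' hyz
    rcases List.mem_cons.1 hx with rfl | hx'
    · exact haux y hy z hz hne
    · rcases List.mem_cons.1 hy with rfl | hy'
      · refine nfw_c1 (haux x hx z hz ?_)
        rintro ⟨rfl, rfl⟩; exact hne ⟨rfl, rfl⟩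
      · rcases List.mem_cons.1 hz with rfl | hz'
        · refine nfw_c2 (nfw_c1 (haux x hx y hy ?_))
          rintro ⟨rfl, rfl⟩; exact hne ⟨rfl, rfl⟩
        · exact h3' x hx' y hy' z hz' hne

lemma crossL_spec (V : List ℕ) : ∀ l : List ℕ, crossL V l = true → ∀ x ∈ l, ∀ y ∈ l, ∀ z ∈ V,
    nfw x y z = true
  | [], _, x, hx, _, _, _, _ => by simp at hx
  | a :: l, h, x, hx, y, hy, z, hz => by
    rw [crossL, Bool.and_eq_true, Bool.and_eq_true, List.all_eq_true, List.all_eq_true] at h
    obtain ⟨⟨h1, h2⟩, h3⟩ := h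
    have h2' : ∀ y ∈ l, ∀ z ∈ V, nfw a y z = true := by
      intro y hy z hz
      have := h2 y hy
      rw [List.all_eq_true] at this
      exact this z hz
    rcases List.mem_cons.1 hx with rfl | hx'
    · rcases List.mem_cons.1 hy with rfl | hy'
      · exact h1 z hz
      · exact h2' y hy' z hz
    · rcases List.mem_cons.1 hy with rfl | hy'
      · exact nfw_c1 (h2' x hx' z hz)
      · exact crossL_spec V l h3 x hx' y hy' z hz

/-- the Boolean check of a word system -/
def chk (N : ℕ) (W V : List ℕ) : Bool :=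
  (W.all fun x => Nat.blt x (2 ^ N)) && (V.all fun x => Nat.blt x (2 ^ N)) &&
    goodL W && goodL V && crossL V W

/-- the word of a number -/
def word (N : ℕ) (x : ℕ) : Fin N → Bool := fun k => x.testBit k

lemma word_NF {N x y z : ℕ} (hx : x < 2 ^ N) (hy : y < 2 ^ N)
    (hz : z < 2 ^ N) (h : nfw x y z = true) : NF (word N x) (word N y) (word N z) := by
  rw [nfw_iff] at h
  obtain ⟨k, hk⟩ := h
  have hkN : k < N := by
    by_contra hcon
    push Not at hcon
    have e : ∀ t : ℕ, t < 2 ^ N → t.testBit k = false := fun t ht =>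
      Nat.testBit_lt_two_pow (ht.trans_le (Nat.pow_le_pow_right (by norm_num) hcon))
    rw [e x hx, e y hy, e z hz] at hk
    exact absurd hk (by decide)
  exact ⟨⟨k, hkN⟩, hk⟩

lemma word_inj {N x y : ℕ} (hx : x < 2 ^ N) (hy : y < 2 ^ N) (h : word N x = word N y) :
    x = y := by
  apply Nat.eq_of_testBit_eq
  intro k
  by_cases hk : k < N
  · exact congrFun h ⟨k, hk⟩
  · push Not at hk
    have e : ∀ t : ℕ, t < 2 ^ N → t.testBit k = false := fun t ht =>
      Nat.testBit_lt_two_pow (ht.trans_le (Nat.pow_le_pow_right (by norm_num) hk))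
    rw [e x hx, e y hy]

/-- number of ones among the last `N` bits -/
def ones : ℕ → ℕ → ℕ
  | 0, _ => 0
  | N + 1, x => ones N x + (if x.testBit N then 1 else 0)

lemma ones_le (N x : ℕ) : ones N x ≤ N := by
  induction N with
  | zero => simp [ones]
  | succ N ih => rw [ones]; split_ifs <;> omega

lemma prod_word (f g : ℕ) (N x : ℕ) :
    (∏ k, if word N x k then f else g) = f ^ ones N x * g ^ (N - ones N x) := by
  induction N with
  | zero => simp [ones]
  | succ N ih =>
    rw [Fin.prod_univ_castSucc]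
    have e : (∏ k : Fin N, if word (N + 1) x k.castSucc then f else g) =
        ∏ k : Fin N, if word N x k then f else g := rfl
    have hle := ones_le N x
    rw [e, ih, ones]
    by_cases h : x.testBit N = true
    · have h' : word (N + 1) x (Fin.last N) = true := h
      rw [if_pos h, if_pos h', pow_succ, show N + 1 - (ones N x + 1) = N - ones N x by omega]
      ring
    · have h' : ¬ word (N + 1) x (Fin.last N) = true := h
      rw [if_neg h, if_neg h', add_zero, show N + 1 - ones N x = (N - ones N x) + 1 by omega,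
        pow_succ]
      ring

/-- size of the composition -/
def wsum (N f g : ℕ) (W : List ℕ) : ℕ :=
  (W.map fun x => f ^ ones N x * g ^ (N - ones N x)).sum

lemma goodL_nodup : ∀ l : List ℕ, goodL l = true → l.Nodup
  | [], _ => List.nodup_nil
  | a :: l, h => by
    have hh := h
    rw [goodL, Bool.and_eq_true, Bool.and_eq_true, List.all_eq_true] at h
    rw [List.nodup_cons]
    refine ⟨fun ha => ?_, goodL_nodup l h.2⟩
    have := h.1.1 a ha
    rw [Bool.and_eq_true, nfw_iff] at this
    obtain ⟨⟨k, hk⟩, _⟩ := this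
    rw [two_self] at hk
    exact Bool.false_ne_true hk

theorem step {n f g : ℕ} (h : Pair n f g) (N : ℕ) (W V : List ℕ) (hc : chk N W V = true) :
    Pair (N * n) (wsum N f g W) (wsum N f g V) := by
  classical
  unfold chk at hc
  rw [Bool.and_eq_true, Bool.and_eq_true, Bool.and_eq_true, Bool.and_eq_true,
    List.all_eq_true, List.all_eq_true] at hc
  obtain ⟨⟨⟨⟨c1, c2⟩, c3⟩, c4⟩, c5⟩ := hc
  have d1 : ∀ x ∈ W, x < 2 ^ N := fun x hx => by
    have := c1 x hx; rwa [Nat.blt_eq] at this
  have d2 : ∀ x ∈ V, x < 2 ^ N := fun x hx => by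
    have := c2 x hx; rwa [Nat.blt_eq] at this
  have hsum : ∀ L : List ℕ, (∀ x ∈ L, x < 2 ^ N) → goodL L = true →
      ∑ w ∈ L.toFinset.image (word N), ∏ k, (if w k then f else g) = wsum N f g L := by
    intro L hL hg
    rw [sum_image, wsum, List.sum_toFinset _ (goodL_nodup L hg)]
    · congr 1
      refine List.map_congr_left fun x _ => prod_word f g N x
    · intro x hx y hy hxy
      rw [mem_coe, List.mem_toFinset] at hx hy
      exact word_inj (hL x hx) (hL y hy) hxy
  have hgood : ∀ L : List ℕ, (∀ x ∈ L, x < 2 ^ N) → goodL L = true →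
      Good (L.toFinset.image (word N)) := by
    intro L hL hg x hx y hy z hz hne
    obtain ⟨a, ha, rfl⟩ := mem_image.1 hx
    obtain ⟨b, hb, rfl⟩ := mem_image.1 hy
    obtain ⟨c, hc, rfl⟩ := mem_image.1 hz
    rw [List.mem_toFinset] at ha hb hc
    refine word_NF (hL a ha) (hL b hb) (hL c hc) (goodL_spec L hg a ha b hb c hc ?_)
    rintro ⟨rfl, rfl⟩
    exact hne ⟨rfl, rfl⟩
  have := comp_pair h (W.toFinset.image (word N)) (V.toFinset.image (word N)) (hgood W d1 c3)
    (hgood V d2 c4) ?_
  · rwa [hsum W d1 c3, hsum V d2 c4] at this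
  · intro x hx y hy z hz
    obtain ⟨a, ha, rfl⟩ := mem_image.1 hx
    obtain ⟨b, hb, rfl⟩ := mem_image.1 hy
    obtain ⟨c, hc, rfl⟩ := mem_image.1 hz
    rw [List.mem_toFinset] at ha hb hc
    exact word_NF (d1 a ha) (d1 b hb) (d2 c hc) (crossL_spec V W c5 a ha b hb c hc)

lemma wsum_scale (N f g k : ℕ) (W : List ℕ) :
    wsum N (f * k) (g * k) W = wsum N f g W * k ^ N := by
  unfold wsum
  rw [← List.sum_map_mul_right]
  congr 1
  refine List.map_congr_left fun x _ => ?_
  have := ones_le N x
  rw [mul_pow, mul_pow]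
  have e : k ^ N = k ^ ones N x * k ^ (N - ones N x) := by
    rw [← pow_add]; congr 1; omega
  rw [e]; ring

theorem step3 {n f g k : ℕ} (h : Pair n (f * 2 ^ k) (g * 2 ^ k)) (N : ℕ) (W V : List ℕ)
    (hc : chk N W V = true) (f' g' s : ℕ)
    (hf : Nat.ble (f' * 2 ^ s) (wsum N f g W) = true)
    (hg : Nat.ble (g' * 2 ^ s) (wsum N f g V) = true) (n' k' : ℕ) (hn : N * n = n')
    (hk : N * k + s = k') : Pair n' (f' * 2 ^ k') (g' * 2 ^ k') := by
  subst hn; subst hk
  refine (step h N W V hc).mono ?_ ?_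
  · rw [wsum_scale]
    have := Nat.le_of_ble_eq_true hf
    calc f' * 2 ^ (N * k + s) = (f' * 2 ^ s) * (2 ^ k) ^ N := by
          rw [← pow_mul, pow_add, mul_comm N k]; ring
      _ ≤ _ := Nat.mul_le_mul_right _ this
  · rw [wsum_scale]
    have := Nat.le_of_ble_eq_true hg
    calc g' * 2 ^ (N * k + s) = (g' * 2 ^ s) * (2 ^ k) ^ N := by
          rw [← pow_mul, pow_add, mul_comm N k]; ring
      _ ≤ _ := Nat.mul_le_mul_right _ this

/-- the one-dimensional pair `{1}, {0}` -/
lemma pair_one : Pair 1 (1 * 2 ^ 0) (1 * 2 ^ 0) := by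
  refine ⟨{fun _ => true}, {fun _ => false}, by simp, by simp, ?_, ?_, ?_⟩
  · intro x hx y hy z hz hne
    rw [mem_singleton] at hx hy hz
    exact absurd ⟨hx.trans hy.symm, hy.trans hz.symm⟩ hne
  · intro x hx y hy z hz hne
    rw [mem_singleton] at hx hy hz
    exact absurd ⟨hx.trans hy.symm, hy.trans hz.symm⟩ hne
  · intro x hx y hy z hz
    rw [mem_singleton] at hx hy hz
    subst hx; subst hy; subst hz
    exact ⟨0, by decide⟩

end Pool.Agent.H523R2.Sun
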